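import Pool.Agent.X39.Near.MasterZ
import Pool.Agent.X255.RH.Tow8

/-!
# `(z - c) ^ π`, `(z - c) ^ e` at ALL algebraic numbers close to any number outside a set of dimension zero

The problem asks whether `n ^ π` or `n ^ e` can be rational for an integer `n ≥ 2`. We study the powers `x ^ θ`, `θ` a fixed
irrational number, for `x = z - c_1, …, z - c_r`, `z` algebraic. More generally let `l_1, …, l_r` be branches of the
functions `log (z - c_j)` on a connected open set `V`, and `S_1, …, S_s` complex polynomials in `z, l_1, …, l_r` of which no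
nontrivial combination with integral coefficients is of the form `c + ∑ k_j l_j`, `c` complex, `k_j` integers (for instance
`π l_j` and `e l_j` together, if `π m + e n` is rational only for `m = n = 0`; or `θ l_j` for one irrational `θ`). Outside ONE
set of complex numbers `x` of Hausdorff dimension `0`, for all number fields `F ⊂ ℂ`, all `k ≥ 1` and `ω > 0` there are `C`
and `T₁` such that for all `T ≥ T₁` and ALL `z ∈ F` of height at most `T` with `|z - x| ≤ T ^ (-ω)` (for instance all
rational numbers) the numbers `l_j (z)`, `exp (S_i (z, l (z)))` satisfy `|P| ≥ H ^ (-C)` for all nonzero integral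
polynomials `P` of degree at most `k` and of height at most `H`, `T ^ (1 / k) ≤ H ≤ T ^ k`; in particular the powers
`(z - c_j) ^ θ` are not rational numbers of height at most `T ^ k`. More generally there is no relation with coefficients
which are polynomials of bounded degree in the `u_i(z) / w(z)` and in given complex numbers `ξ_i`, with coefficients in `F` of
height at most `T ^ A`. This holds at the convergents of all irrational real numbers in `V` outside this set, from some point
on.
-/

set_option autoImplicit false

open MeasureTheory NumberField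

namespace Pool.Agent.Results.MP_ee2255_nt.ApproximationsOfAllNumbers

open Pool.Agent.X39.Near (Size Dependent Inequality)

/-- On the connected open set `V`, `l_j` is a branch of `log (z - c_j)`; the numbers `c_j` are distinct. -/
structure Branches (V : Set ℂ) {r : ℕ} (c : Fin r → ℂ) (l : Fin r → ℂ → ℂ) : Prop where
  isOpen : IsOpen V
  isPreconnected : IsPreconnected V
  nonempty : V.Nonempty
  injective : Function.Injective c
  analytic : ∀ j, AnalyticOnNhd ℂ (l j) V
  exp_l : ∀ j, ∀ z ∈ V, Complex.exp (l j z) = z - c j

/-- No nontrivial combination of the polynomials `S_i` in the variables `X_none` (for `z`) and `X_j` (for `l_j`), with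
integral coefficients, is of the form `c + ∑ k_j X_j`, `c` complex, `k_j` integers. -/
def Admissible {r s : ℕ} (S : Fin s → MvPolynomial (Option (Fin r)) ℂ) : Prop :=
  ∀ n : Fin s → ℤ, n ≠ 0 → ∀ (c : ℂ) (k : Fin r → ℤ), ∑ i, MvPolynomial.C (n i : ℂ) * S i ≠
    MvPolynomial.C c + ∑ j, MvPolynomial.C (k j : ℂ) * MvPolynomial.X (some j)

/-- the functions `l_j (z)` and `exp (S_i (z, l (z)))` -/
noncomputable def value {r s : ℕ} (l : Fin r → ℂ → ℂ) (S : Fin s → MvPolynomial (Option (Fin r)) ℂ) :
    Fin r ⊕ Fin s → ℂ → ℂ
  | Sum.inl j, z => l j z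
  | Sum.inr i, z => Complex.exp (MvPolynomial.eval (fun o : Option (Fin r) => o.elim z fun j => l j z) (S i))

theorem powers_admissible (r : ℕ) (θ : ℝ) (hθ : Irrational θ) :
    Admissible fun j : Fin r => (MvPolynomial.C (θ : ℂ) * MvPolynomial.X (some j) : MvPolynomial (Option (Fin r)) ℂ) := by
  intro n hn c k h
  apply hn
  funext j
  have h1 := congrArg (MvPolynomial.coeff (Finsupp.single (some j) 1)) h
  rw [MvPolynomial.coeff_sum, MvPolynomial.coeff_add, MvPolynomial.coeff_sum, MvPolynomial.coeff_C,
    if_neg (by
      intro h0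
      have h2 := DFunLike.congr_fun h0 (some j)
      simp at h2), zero_add] at h1
  simp only [MvPolynomial.coeff_C_mul, MvPolynomial.coeff_X] at h1
  have h2 : ∀ i : Fin r, (Finsupp.single (some i) 1 = (Finsupp.single (some j) 1 : Option (Fin r) →₀ ℕ)) ↔ i = j := by
    intro i
    constructor
    · intro h
      exact Option.some_injective _ (Finsupp.single_left_injective one_ne_zero h)
    · rintro rfl
      rfl
  simp only [MvPolynomial.coeff_X', h2] at h1
  simp at h1
  by_contra hnj
  apply hθ
  refine ⟨(k j / n j : ℚ), ?_⟩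
  have hnj' : (n j : ℝ) ≠ 0 := by exact_mod_cast hnj
  have h3 : (n j : ℝ) * θ = k j := by exact_mod_cast h1
  push_cast
  field_simp
  linarith

/-- **Theorem.** Let `l_j` be branches of `log (z - c_j)` on `V` and let `S` be an admissible family of polynomials; let
`u_k`, `w` be complex polynomials, `w` without zeros on `V`, and `ξ_1, …, ξ_g` complex numbers. For every irrational
`θ` the polynomials `θ X_j` are admissible, and their values are the powers `exp (θ l_j(z)) = (z - c_j) ^ θ`.
There is a set `E` of complex numbers of Hausdorff dimension `0` such that for all `x ∈ V` outside `E`: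
(1) for all number fields `F` with an embedding `ι` in `ℂ`, all `k ≥ 1` and `ω > 0` there are `C`, `T₁` such that for all
`T ≥ T₁` and all `z ∈ F`, quotients of integers with conjugates at most `T`, with `|ι z - x| ≤ T ^ (-ω)`, every nonzero
integral polynomial of total degree at most `k` and height at most `H`, where `T ^ (1 / k) ≤ H ≤ T ^ k`, has at
`l_j(z)`, `exp (S_i (z, l(z)))` a value of absolute value at least `H ^ (-C)`;
(2) for all such `F`, `ι`, all `d`, `A` and `ω > 0` there are `B`, `T₁` such that for all `T ≥ T₁` and all such `z` the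
numbers are not dependent (coefficients of degree at most `d` in the `u_k(z) / w(z)` and `ξ_i`);
(3) if `x` is real and irrational, for all `d`, `A` there is `B` such that the numbers at the convergents of `x` are not
dependent over `ℚ`, at the level of the denominator, from some point on. -/
theorem result {r s q g : ℕ} (V : Set ℂ) (c : Fin r → ℂ) (l : Fin r → ℂ → ℂ) (hB : Branches V c l)
    (S : Fin s → MvPolynomial (Option (Fin r)) ℂ) (hS : Admissible S)
    (u : Fin q → Polynomial ℂ) (w : Polynomial ℂ) (hw : ∀ t ∈ V, w.eval t ≠ 0) (ξ : Fin g → ℂ) :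
    (∀ θ : ℝ, Irrational θ →
      Admissible (fun j : Fin r => (MvPolynomial.C (θ : ℂ) * MvPolynomial.X (some j) : MvPolynomial (Option (Fin r)) ℂ)) ∧
      ∀ j z, value l (fun j => MvPolynomial.C (θ : ℂ) * MvPolynomial.X (some j)) (Sum.inr j) z = Complex.exp (θ * l j z)) ∧
    ∃ E : Set ℂ, dimH E = 0 ∧
      (∀ x ∈ V, x ∉ E → ∀ (F : Type) [Field F] [NumberField F] (ι : F →+* ℂ)
        (k : ℕ) (ω : ℝ), 1 ≤ k → 0 < ω → ∃ C T₁ : ℝ, ∀ T : ℝ, T₁ ≤ T → ∀ t : F, Size F T t →
          ‖ι t - x‖ ≤ T ^ (-ω) → Inequality k C T (fun j => value l S j (ι t))) ∧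
      (∀ x ∈ V, x ∉ E → ∀ (F : Type) [Field F] [NumberField F] (ι : F →+* ℂ)
        (d A : ℕ) (ω : ℝ), 0 < ω → ∃ B T₁ : ℝ, ∀ T : ℝ, T₁ ≤ T → ∀ t : F, Size F T t →
          ‖ι t - x‖ ≤ T ^ (-ω) → ¬ Dependent (value l S) u w ξ F ι d A B T t) ∧
      ∀ x : ℝ, Irrational x → (x : ℂ) ∈ V → (x : ℂ) ∉ E → ∀ d A : ℕ, ∃ (B : ℝ) (n₀ : ℕ),
        ∀ k : ℕ, n₀ ≤ k → ¬ Dependent (value l S) u w ξ ℚ (algebraMap ℚ ℂ) d A B (x.convergent k).den
          (x.convergent k) := by
  refine ⟨fun θ hθ => ⟨powers_admissible r θ hθ, fun j z => by simp [value]⟩, ?_⟩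
  have hop : IsOpen V := hB.isOpen
  have hpre : IsPreconnected V := hB.isPreconnected
  have hind0 := Pool.Agent.X255.RH.Tow.loge_indep hB.isPreconnected hB.isOpen hB.nonempty c hB.injective l hB.analytic
    hB.exp_l S hS
  have hval : value l S = (fun (o : Fin r ⊕ Fin s) x => Sum.elim (fun j => l j x)
      (fun i => Complex.exp (MvPolynomial.eval (fun o : Option (Fin r) => o.elim x fun j => l j x) (S i))) o) := by
    funext w z
    rcases w with j | i <;> rfl
  have han : ∀ w : Fin r ⊕ Fin s, AnalyticOnNhd ℂ (value l S w) V := by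
    rintro (j | i)
    · exact hB.analytic j
    · intro z hz
      have h1 : (fun x => MvPolynomial.eval (fun o : Option (Fin r) => o.elim x fun j => l j x) (S i)) =
          fun x => MvPolynomial.eval (fun o => (fun o : Option (Fin r) => o.elim (fun s => s) l) o x) (S i) := by
        funext x
        congr 2
        funext o
        rcases o with _ | j <;> rfl
      have h2 := Pool.Agent.X255.RH.Tow.mv_an (V := V) (f := fun o : Option (Fin r) => o.elim (fun s => s) l)
        (by
          rintro (_ | j)
          · exact fun x _ => analyticAt_id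
          · exact hB.analytic j) (S i)
      rw [← h1] at h2
      exact (h2 z hz).cexp
  have hind : Pool.Agent.X255.RH.Indep V (value l S) := by
    rw [hval]
    exact hind0
  obtain ⟨E, h1, h2, h3⟩ := Pool.Agent.X39.Near.master_indep V hop hpre (value l S) han hind u w hw ξ
  exact ⟨E, h1, Pool.Agent.X39.Near.ineq_of h2, h2, h3⟩

end Pool.Agent.Results.MP_ee2255_nt.ApproximationsOfAllNumbers
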