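import Pool.Agent.X255.RH.Tow8
import Pool.Agent.X255.RH.Loc
import Pool.Agent.X255.RH.Mea3

/-!
# `(z - c) ^ π`, `(z - c) ^ e` at almost all algebraic numbers, jointly for all conjugates

The problem asks whether `n ^ π` or `n ^ e` can be rational for an integer `n ≥ 2`. We study the powers `x ^ θ`, `θ` a fixed
irrational number, for `x = z - c_1, …, z - c_r`, `z` algebraic. More generally let `l_1, …, l_r` be branches of the
functions `log (z - c_j)` on a connected open set `V`, and `S_1, …, S_s` complex polynomials in `z, l_1, …, l_r` of which no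
nontrivial combination with integral coefficients is of the form `c + ∑ k_j l_j`, `c` complex, `k_j` integers. For 100% of
the integral polynomials of degree `g`, ordered by the maximum `T` of the absolute values of the coefficients, we prove
that the numbers `l_j (z)` and `exp (S_i (z, l (z)))`, `z` ALL roots of the polynomial in `V` (at distance at least
`1 / (k + 1)` from the complement), satisfy no relation whose degree, and the degree of whose coefficient field, is at
most `ω (T)`, and whose coefficients are of size at most `T ^ ω (T)`, where `ω (T) → ∞` (the coefficients may also contain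
arbitrary fixed complex numbers), and, for integral polynomials of degree at most `k`, a measure of algebraic
independence `|P| ≥ H ^ (-C)` for the heights `H` between `T ^ (1 / k)` and `T ^ k`. The case `S_j = θ l_j` gives the powers
`(z - c_j) ^ θ`, with `θ = π` and with `θ = e`.

Proof: `Pool.Agent.X255.NP` and `Pool.Agent.Y890.MV` (nonstandard versions of the Bombieri-Pila method), the algebraic
independence over `ℂ(z)` of the functions (`Pool.Agent.X255.RH.Tow8`, differential algebra), and `Pool.Agent.X255.RH`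
(independence of functions of different variables; almost no integral polynomial has close roots).
-/

set_option autoImplicit false

open Polynomial Filter NumberField
open scoped Classical

namespace Pool.Agent.Results.MP_ee2255_nt.ConjugatePowers

/-- On the connected open set `V`, `l_j` is a branch of `log (z - c_j)`; the numbers `c_j` are distinct. -/
structure Branches (V : Set ℂ) {r : ℕ} (c : Fin r → ℂ) (l : Fin r → ℂ → ℂ) : Prop where
  isOpen : IsOpen V
  isPreconnected : IsPreconnected V
  nonempty : V.Nonempty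
  injective : Function.Injective c
  analytic : ∀ j, AnalyticOnNhd ℂ (l j) V
  exp_l : ∀ j, ∀ z ∈ V, Complex.exp (l j z) = z - c j

/-- No nontrivial combination of the polynomials `S_i` in the variables `X_none` (for `z`) and `X_j` (for `l_j`), with
integral coefficients, is of the form `c + ∑ k_j X_j`, `c` complex, `k_j` integers. -/
def Admissible {r s : ℕ} (S : Fin s → MvPolynomial (Option (Fin r)) ℂ) : Prop :=
  ∀ n : Fin s → ℤ, n ≠ 0 → ∀ (c : ℂ) (k : Fin r → ℤ), ∑ i, MvPolynomial.C (n i : ℂ) * S i ≠
    MvPolynomial.C c + ∑ j, MvPolynomial.C (k j : ℂ) * MvPolynomial.X (some j)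

/-- the numbers `l_j (z)` and `exp (S_i (z, l (z)))` -/
noncomputable def value {r s : ℕ} (l : Fin r → ℂ → ℂ) (S : Fin s → MvPolynomial (Option (Fin r)) ℂ) (z : ℂ) :
    Fin r ⊕ Fin s → ℂ
  | Sum.inl j => l j z
  | Sum.inr i => Complex.exp (MvPolynomial.eval (fun o : Option (Fin r) => o.elim z fun j => l j z) (S i))

/-- the polynomial `a_g X ^ g + … + a_0` -/
noncomputable def poly {g : ℕ} (a : Fin (g + 1) → ℤ) : ℂ[X] := ∑ i, C (a i : ℂ) * X ^ (i : ℕ)

/-- the roots of the polynomial in the set `V` -/
noncomputable def rootsIn (V : Set ℂ) {g : ℕ} (a : Fin (g + 1) → ℤ) : Finset ℂ :=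
  (poly a).roots.toFinset.filter fun z => z ∈ V

/-- The numbers `x q`, `q ∈ Q`, satisfy no relation of degree at most `k` in each of them with coefficients
`∑ ξ b * c b`, `b < k`, where the `c b` are integers of a number field of degree at most `k`, all of whose conjugates
are of absolute value at most `T ^ k`, except the relations all of whose coefficients vanish. -/
def Unrelated {Q : Type} [Fintype Q] [DecidableEq Q] (ξ : ℕ → ℂ) (k : ℕ) (T : ℝ) (x : Q → ℂ) : Prop :=
  ∀ (F : Type) [Field F] [NumberField F], Module.finrank ℚ F ≤ k → ∀ (io : F →+* ℂ)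
    (c : (Q → Fin (k + 1)) → Fin k → 𝓞 F), (∀ l b (φ : F →+* ℂ), ‖φ (c l b : F)‖ ≤ T ^ k) →
    ∑ l, (∑ b : Fin k, ξ b * io (c l b : F)) * ∏ q, x q ^ (l q : ℕ) = 0 → ∀ l, ∑ b : Fin k, ξ b * io (c l b : F) = 0

/-- Lower bounds for heights between `T ^ (1 / k)` and `T ^ k`: every nonzero integral polynomial `P` of total degree at
most `k` and height at most `H` satisfies `|P (x)| ≥ H ^ (-C)`. -/
def Measure {Q : Type} (k : ℕ) (C T : ℝ) (x : Q → ℂ) : Prop :=
  ∀ H : ℝ, T ^ ((1 : ℝ) / k) ≤ H → H ≤ T ^ k → ∀ P : MvPolynomial Q ℤ, P ≠ 0 → P.totalDegree ≤ k →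
    (∀ m, |((P.coeff m : ℤ) : ℝ)| ≤ H) → H ^ (-C) ≤ ‖MvPolynomial.aeval x P‖

/-- the `a` with `|a_i| ≤ T` -/
noncomputable def box (g T : ℕ) : Finset (Fin (g + 1) → ℤ) := Fintype.piFinset fun _ => Finset.Icc (-(T : ℤ)) T

/-- the points whose distance to the complement of `V` is at least `1 / (k + 1)` -/
def region (V : Set ℂ) (k : ℕ) : Set ℂ := {z | Metric.ball z (1 / ((k : ℝ) + 1)) ⊆ V}

/-- the numbers `l_j (z)` and `exp (S_i (z, l (z)))`, `z` all roots of `a` in the set `K` -/
noncomputable def numbers {g r s : ℕ} (K : Set ℂ) (l : Fin r → ℂ → ℂ) (S : Fin s → MvPolynomial (Option (Fin r)) ℂ)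
    (a : Fin (g + 1) → ℤ) (q : {z // z ∈ rootsIn K a} × (Fin r ⊕ Fin s)) : ℂ :=
  value l S q.1 q.2

/-- `a` is of degree `g`, with simple roots, and the numbers at the roots in `region V k` are unrelated -/
def Good {g r s : ℕ} (V : Set ℂ) (l : Fin r → ℂ → ℂ) (S : Fin s → MvPolynomial (Option (Fin r)) ℂ) (ξ : ℕ → ℂ) (k : ℕ) (T : ℝ) (a : Fin (g + 1) → ℤ) : Prop :=
  a (Fin.last g) ≠ 0 ∧ (poly a).Separable ∧ Unrelated ξ k T (numbers (region V k) l S a)

/-- `a` is of degree `g`, with simple roots, and the numbers at the roots in `region V k` satisfy the lower bounds -/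
def GoodM {g r s : ℕ} (V : Set ℂ) (l : Fin r → ℂ → ℂ) (S : Fin s → MvPolynomial (Option (Fin r)) ℂ) (k : ℕ) (C T : ℝ) (a : Fin (g + 1) → ℤ) : Prop :=
  a (Fin.last g) ≠ 0 ∧ (poly a).Separable ∧ Measure k C T (numbers (region V k) l S a)

/-- `a` is of degree `g`, its roots are simple, of absolute value at most `R`, at distance at least `η` from each other,
and the roots in `V` are at distance at least `η` from the complement of `V` -/
def Position (V : Set ℂ) (R η : ℝ) {g : ℕ} (a : Fin (g + 1) → ℤ) : Prop :=
  a (Fin.last g) ≠ 0 ∧ (poly a).Separable ∧ ∀ z, (poly a).eval z = 0 → ‖z‖ ≤ R ∧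
    (∀ w, (poly a).eval w = 0 → w ≠ z → η ≤ ‖z - w‖) ∧ (z ∈ V → Metric.ball z η ⊆ V)

theorem powers_admissible (r : ℕ) (θ : ℝ) (hθ : Irrational θ) :
    Admissible fun j : Fin r => (MvPolynomial.C (θ : ℂ) * MvPolynomial.X (some j) : MvPolynomial (Option (Fin r)) ℂ) := by
  intro n hn c k h
  apply hn
  funext j
  have h1 := congrArg (MvPolynomial.coeff (Finsupp.single (some j) 1)) h
  rw [MvPolynomial.coeff_sum, MvPolynomial.coeff_add, MvPolynomial.coeff_sum, MvPolynomial.coeff_C,
    if_neg (by
      intro h0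
      have h2 := DFunLike.congr_fun h0 (some j)
      simp at h2), zero_add] at h1
  simp only [MvPolynomial.coeff_C_mul, MvPolynomial.coeff_X] at h1
  have h2 : ∀ i : Fin r, (Finsupp.single (some i) 1 = (Finsupp.single (some j) 1 : Option (Fin r) →₀ ℕ)) ↔ i = j := by
    intro i
    constructor
    · intro h
      exact Option.some_injective _ (Finsupp.single_left_injective one_ne_zero h)
    · rintro rfl
      rfl
  simp only [MvPolynomial.coeff_X', h2] at h1
  simp at h1
  by_contra hnj
  apply hθ
  refine ⟨(k j / n j : ℚ), ?_⟩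
  have hnj' : (n j : ℝ) ≠ 0 := by exact_mod_cast hnj
  have h3 : (n j : ℝ) * θ = k j := by exact_mod_cast h1
  push_cast
  field_simp
  linarith

/-- **Theorem.** Let `g ≥ 1`, let `l_j` be branches of `log (z - c_j)` on `V` and let `S` be an admissible family of polynomials.
(1) For every sequence `ξ` there is a monotone `ω`, `ω(T) → ∞`, such that the proportion of the polynomials with
`|a_i| ≤ T` which are not `Good` with `k = ω(T)` is at most `1 / ω(T)`.
(2) For every `k ≥ 1` there are `C` and `T₀` such that for `T ≥ T₀` the proportion of the polynomials with `|a_i| ≤ T`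
which are not `GoodM` is at most `1 / k`.
(3) For fixed `k ≥ 1`, `R`, `η > 0` and `ε > 0` there are `B`, `C` such that the lower bounds `Measure k B T` for the
numbers at the roots in `V` hold for all but `C T ^ (g + ε)` of the polynomials with `|a_i| ≤ T` whose roots are in the
compact position `Position V R η` (there are about `(2 T) ^ (g + 1)` polynomials).
(4) For irrational `θ`, for instance `θ = π`, `θ = e`, the polynomials `θ X_j` are admissible, and their values are
the powers `exp (θ l_j (z)) = (z - c_j) ^ θ`. -/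
theorem result (g r s : ℕ) (hg : 0 < g) (V : Set ℂ) (c : Fin r → ℂ) (l : Fin r → ℂ → ℂ) (hB : Branches V c l)
    (S : Fin s → MvPolynomial (Option (Fin r)) ℂ) (hS : Admissible S) :
    (∀ ξ : ℕ → ℂ, ∃ ω : ℕ → ℕ, Tendsto ω atTop atTop ∧ Monotone ω ∧ ∀ T,
      ω T * ((box g T).filter fun a => ¬ Good V l S ξ (ω T) T a).card ≤ (box g T).card) ∧
    (∀ k : ℕ, 1 ≤ k → ∃ (C : ℝ) (T₀ : ℕ), ∀ T : ℕ, T₀ ≤ T →
      (k : ℝ) * ((box g T).filter fun a => ¬ GoodM V l S k C T a).card ≤ (box g T).card) ∧
    (∀ (k : ℕ) (R η ε : ℝ), 1 ≤ k → 0 < η → 0 < ε → ∃ B C : ℝ, ∀ T : ℕ, 1 ≤ T →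
      (((box g T).filter fun a => Position V R η a ∧ ¬ Measure k B T (numbers V l S a)).card : ℝ) ≤
        C * (T : ℝ) ^ ((g : ℝ) + ε)) ∧
    ∀ θ : ℝ, Irrational θ →
      Admissible (fun j : Fin r => (MvPolynomial.C (θ : ℂ) * MvPolynomial.X (some j) : MvPolynomial (Option (Fin r)) ℂ)) ∧
      ∀ j z, value l (fun j => MvPolynomial.C (θ : ℂ) * MvPolynomial.X (some j)) z (Sum.inr j) = Complex.exp (θ * l j z) := by
  have hop : IsOpen V := hB.isOpen
  have hpre : IsPreconnected V := hB.isPreconnected
  have hind0 := Pool.Agent.X255.RH.Tow.loge_indep hB.isPreconnected hB.isOpen hB.nonempty c hB.injective l hB.analytic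
    hB.exp_l S hS
  have hval : (fun (w : Fin r ⊕ Fin s) z => value l S z w) = (fun (o : Fin r ⊕ Fin s) x => Sum.elim (fun j => l j x)
      (fun i => Complex.exp (MvPolynomial.eval (fun o : Option (Fin r) => o.elim x fun j => l j x) (S i))) o) := by
    funext w z
    rcases w with j | i <;> rfl
  have han : ∀ w : Fin r ⊕ Fin s, AnalyticOnNhd ℂ (fun z => value l S z w) V := by
    rintro (j | i)
    · exact hB.analytic j
    · intro z hz
      have h1 : (fun x => MvPolynomial.eval (fun o : Option (Fin r) => o.elim x fun j => l j x) (S i)) =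
          fun x => MvPolynomial.eval (fun o => (fun o : Option (Fin r) => o.elim (fun s => s) l) o x) (S i) := by
        funext x
        congr 2
        funext o
        rcases o with _ | j <;> rfl
      have h2 := Pool.Agent.X255.RH.Tow.mv_an (V := V) (f := fun o : Option (Fin r) => o.elim (fun s => s) l)
        (by
          rintro (_ | j)
          · exact fun x _ => analyticAt_id
          · exact hB.analytic j) (S i)
      rw [← h1] at h2
      exact (h2 z hz).cexp
  have hind : Pool.Agent.X255.RH.Indep V (fun (w : Fin r ⊕ Fin s) z => value l S z w) := by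
    rw [hval]
    exact hind0
  have h2 := fun (k : ℕ) (hk : 1 ≤ k) => Pool.Agent.X255.RH.mea_all (g := g) hg hpre hop
    (Pool.Agent.X255.RH.tame_deep V k) han hind k hk
  refine ⟨fun ξ => ?_, fun k hk => ?_, fun k R η ε hk hη hε => ?_, fun θ hθ => ⟨powers_admissible r θ hθ, fun j z => by simp [value]⟩⟩
  · exact Pool.Agent.X255.RH.main_all (g := g) hg hpre hop (region V) (Pool.Agent.X255.RH.tame_deep V) han hind ξ
  · obtain ⟨B, T₀, h⟩ := h2 k hk
    refine ⟨k * max B 0, max 1 T₀, fun T hT => ?_⟩
    have hT1 : (1 : ℝ) ≤ T := by exact_mod_cast (le_max_left _ _).trans hT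
    have h3 := h T ((le_max_right _ _).trans hT) (fun b => if b = 0 then 1 else 0)
    refine le_trans ?_ h3
    refine mul_le_mul_of_nonneg_left ?_ (Nat.cast_nonneg _)
    refine Nat.cast_le.2 (Finset.card_le_card fun a ha => ?_)
    rw [Finset.mem_filter] at ha ⊢
    refine ⟨ha.1, fun hgood => ha.2 ⟨hgood.1, hgood.2.1, ?_⟩⟩
    intro H hH1 hH2 P hP hd hc
    exact hgood.2.2.height hk hT1 hH1 hH2 P hP hd hc
  · obtain ⟨B, C, h⟩ := Pool.Agent.X255.RH.mea_eps (g := g) hg hpre hop han hind V k R η ε hη hε
    refine ⟨k * max B 0, C, fun T hT => ?_⟩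
    have hT1 : (1 : ℝ) ≤ T := by exact_mod_cast hT
    refine le_trans ?_ (h T hT (fun b => if b = 0 then 1 else 0))
    refine Nat.cast_le.2 (Finset.card_le_card fun a ha => ?_)
    rw [Finset.mem_filter] at ha ⊢
    refine ⟨ha.1, ha.2.1, fun hm => ha.2.2 ?_⟩
    intro H hH1 hH2 P hP hd hc
    exact hm.height hk hT1 hH1 hH2 P hP hd hc

end Pool.Agent.Results.MP_ee2255_nt.ConjugatePowers
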