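import Mathlib
import Pool.Agent.X142.DN.Int
import Pool.Agent.H340R2.LW

/-!
# Few integers `n` have `n^π` or `n^e` close to a rational or algebraic number

For all but `C X^ε` of the integers `n ≤ X` the numbers `n^π` and `n^e` are not closer than `n^{-w}`
to any rational number of denominator at most `n^c`, nor to any algebraic number of bounded degree
and height at most `n^c`.  The same holds for all but `C X^ε` of the positive rational numbers of
height at most `X` in place of the integers.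
-/

set_option autoImplicit false

namespace Pool.Agent.Results.MP_ee2255_nt.FewIntegers

open Polynomial

/-- Some irreducible polynomial with integer coefficients, of degree between `1` and `d` and with
coefficients of absolute value at most `H`, has absolute value at most `η` at `ξ`. -/
def NearAlg (d : ℕ) (H η ξ : ℝ) : Prop :=
  ∃ Q : ℤ[X], Irreducible Q ∧ 1 ≤ Q.natDegree ∧ Q.natDegree ≤ d ∧
    (∀ i, |(Q.coeff i : ℝ)| ≤ H) ∧ |aeval ξ Q| ≤ η

/-- `r` is positive and its numerator and denominator are at most `X`. -/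
def Height (X : ℕ) (r : ℚ) : Prop := 0 < r ∧ r.num ≤ X ∧ r.den ≤ X

/-- Let `θ` be `π` or `e`, and `ε > 0`.
(1) For all `d` and `c` there are `w` and `C` such that for all `X ≥ 1` at most `C X^ε` integers
`1 ≤ n ≤ X` satisfy `|Q(n^θ)| ≤ n^{-w}` for an irreducible `Q ∈ ℤ[X]` of degree between `1` and `d`
with coefficients at most `n^c` in absolute value.
(2) For all `c` there are `w` and `C` such that for all `X ≥ 1` at most `C X^ε` integers `1 ≤ n ≤ X`
satisfy `|n^θ - p/q| ≤ n^{-w}` for integers `p` and `1 ≤ q ≤ n^c`.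
(3) For all `d` and `c` there are `w` and `C` such that for all `X ≥ 1` at most `C X^ε` positive
rational numbers `r` of height at most `X` satisfy `|Q(r^θ)| ≤ X^{-w}` for an irreducible
`Q ∈ ℤ[X]` of degree between `1` and `d` with coefficients at most `X^c` in absolute value. -/
theorem result (θ : ℝ) (hθ : θ = Real.pi ∨ θ = Real.exp 1) (ε : ℝ) (hε : 0 < ε) :
    (∀ (d : ℕ) (c : ℝ), ∃ w C : ℝ, ∀ X : ℕ, 1 ≤ X →
      (({n : ℕ | 1 ≤ n ∧ n ≤ X ∧ NearAlg d ((n : ℝ) ^ c) ((n : ℝ) ^ (-w)) ((n : ℝ) ^ θ)}.ncard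
        : ℕ) : ℝ) ≤ C * (X : ℝ) ^ ε) ∧
    (∀ c : ℝ, ∃ w C : ℝ, ∀ X : ℕ, 1 ≤ X →
      (({n : ℕ | 1 ≤ n ∧ n ≤ X ∧ ∃ (p : ℤ) (q : ℕ), 1 ≤ q ∧ (q : ℝ) ≤ (n : ℝ) ^ c ∧
        |(n : ℝ) ^ θ - (p : ℝ) / (q : ℝ)| ≤ (n : ℝ) ^ (-w)}.ncard : ℕ) : ℝ) ≤ C * (X : ℝ) ^ ε) ∧
    (∀ (d : ℕ) (c : ℝ), ∃ w C : ℝ, ∀ X : ℕ, 1 ≤ X →
      (({r : ℚ | Height X r ∧
        NearAlg d ((X : ℝ) ^ c) ((X : ℝ) ^ (-w)) ((r : ℝ) ^ θ)}.ncard : ℕ) : ℝ) ≤
          C * (X : ℝ) ^ ε) := by
  have hirr : Irrational θ := by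
    rcases hθ with rfl | rfl
    · exact irrational_pi
    · exact Pool.Agent.H340R2.LW.transcendental_exp_one.irrational
  obtain ⟨h1, h2, h3⟩ := Pool.Agent.X142.DN.three hirr ε hε
  refine ⟨fun d c => ?_, fun c => ?_, fun d c => ?_⟩
  · obtain ⟨w, C, h⟩ := h1 d c
    refine ⟨w, |C|, fun X hX => Pool.Agent.X142.DN.ncard_le (by positivity) fun S hS => ?_⟩
    exact (h X hX S hS).trans (mul_le_mul_of_nonneg_right (le_abs_self C) (by positivity))
  · obtain ⟨w, C, h⟩ := h2 c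
    refine ⟨w, |C|, fun X hX => Pool.Agent.X142.DN.ncard_le (by positivity) fun S hS => ?_⟩
    exact (h X hX S hS).trans (mul_le_mul_of_nonneg_right (le_abs_self C) (by positivity))
  · obtain ⟨w, C, h⟩ := h3 d c
    refine ⟨w, |C|, fun X hX => Pool.Agent.X142.DN.ncard_le (by positivity) fun S hS => ?_⟩
    exact (h X hX S hS).trans (mul_le_mul_of_nonneg_right (le_abs_self C) (by positivity))

end Pool.Agent.Results.MP_ee2255_nt.FewIntegers
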