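import Pool.Agent.X139.JR.Core

/-!
# The numbers `a ^ π b ^ e`: linear independence of `1, π, e` and the rank of the algebraic values

Let `v_1, …, v_N` be real numbers, and consider the multiplicative group of all tuples
`(a_1, …, a_N)` of positive algebraic numbers for which `a_1 ^ v_1 ⋯ a_N ^ v_N` is algebraic. If
`1, v_1, …, v_N` are linearly independent over `ℚ` its rank is at most `N (N + 1)` (and less if one of
the `v_i` is `π`), if they are not linearly independent it is infinite. So the assertion that `1, π, e` are linearly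
independent over `ℚ` is equivalent to a finite transcendence statement on the numbers `a ^ π b ^ e`
for positive rational (or positive algebraic) `a` and `b`.
-/

set_option autoImplicit false

namespace Pool.Agent.Results.MP_ee2255_nt.JointRank

open Finset Pool.Agent.X139.JR

/-- the number `a_1 ^ v_1 ⋯ a_N ^ v_N · e ^ (r + s_1 v_1 + ⋯ + s_N v_N)` -/
noncomputable def P {N : ℕ} (v a : Fin N → ℝ) (r : ℚ) (s : Fin N → ℚ) : ℝ :=
  (∏ i, a i ^ v i) * Real.exp (r + ∑ i, s i * v i)

/-- The tuples `a j` of positive numbers are multiplicatively independent: a product of integral (or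
rational) powers of them is the tuple `(1, …, 1)` only if all exponents are `0`. -/
def Indep {N : ℕ} {ι : Type} (a : ι → Fin N → ℝ) : Prop :=
  LinearIndependent ℚ (fun j i => Real.log (a j i))

theorem exp_alg_log {x : ℝ} (h0 : 0 < x) (h : IsAlgebraic ℚ x) : IsAlgebraic ℚ (Real.exp (Real.log x)) := by
  rw [Real.exp_log h0]
  exact h

/-- a linear form with rational coefficients in logarithms is rational only if it vanishes -/
theorem lindemann {l : ℕ} (u : Fin l → ℝ) (hu : ∀ j, 0 < u j) (hau : ∀ j, IsAlgebraic ℚ (u j))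
    (c : Fin l → ℚ) (q : ℚ) (h : ∑ j, (c j : ℝ) * Real.log (u j) = q) : q = 0 := by
  by_contra hq
  have h1 : ∀ j, IsAlgebraic ℚ (Real.exp ((c j : ℝ) * Real.log (u j))) := by
    intro j
    have h2 : ((c j : ℝ) * Real.log (u j)) ∈ Lf := by
      have := Lf.smul_mem (c j) (⟨Real.log (u j), 0, exp_alg_log (hu j) (hau j), ⟨0, by simp⟩,
        by simp⟩ : Real.log (u j) ∈ Lf)
      rwa [Rat.smul_def] at this
    have h3 : Real.exp ((c j : ℝ) * Real.log (u j)) = u j ^ (c j : ℝ) := by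
      rw [Real.rpow_def_of_pos (hu j), mul_comm]
    rw [h3]
    have h4 : (u j ^ (c j : ℝ)) ^ (c j).den = u j ^ (c j).num := by
      rw [← Real.rpow_natCast, ← Real.rpow_mul (hu j).le, ← Real.rpow_intCast]
      congr 1
      have h5 := Rat.mul_den_eq_num (c j)
      exact_mod_cast h5
    have h6 : IsAlgebraic ℚ (u j ^ (c j).num) := by
      rcases (c j).num with n | n
      · simpa using (hau j).pow n
      · rw [zpow_negSucc]
        exact ((hau j).pow _).inv
    rw [← h4] at h6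
    exact IsAlgebraic.of_pow (Nat.pos_of_ne_zero (c j).den_nz) h6
  have h2 : IsAlgebraic ℚ (Real.exp (q : ℝ)) := by
    rw [← h, Real.exp_sum]
    exact Finset.prod_induction _ (fun x => IsAlgebraic ℚ x) (fun _ _ h h' => h.mul h')
      isAlgebraic_one (fun j _ => h1 j)
  have h3 : IsAlgebraic ℚ (Real.exp 1) := by
    have h4 : Real.exp (q : ℝ) ^ (q.den : ℕ) = Real.exp 1 ^ q.num := by
      rw [← Real.exp_nat_mul, ← Real.rpow_intCast, ← Real.exp_mul]
      congr 1
      have h5 := Rat.mul_den_eq_num q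
      rw [one_mul, mul_comm]
      exact_mod_cast h5
    have h5 : IsAlgebraic ℚ (Real.exp 1 ^ q.num) := by
      rw [← h4]
      exact h2.pow _
    have hn : q.num ≠ 0 := Rat.num_ne_zero.mpr hq
    have h6 : IsAlgebraic ℚ (Real.exp 1 ^ q.num.natAbs) := by
      rcases Int.natAbs_eq q.num with h7 | h7
      · rw [h7, zpow_natCast] at h5
        exact h5
      · rw [h7, zpow_neg, zpow_natCast] at h5
        have := h5.inv
        rwa [inv_inv] at this
    exact IsAlgebraic.of_pow (Int.natAbs_pos.mpr hn) h6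
  exact Pool.Agent.H340R2.LW.transcendental_exp_one h3

section upper

variable {N : ℕ} (v : Fin N → ℝ) {l : ℕ} (a : Fin l → Fin N → ℝ) (h0 : ∀ j i, 0 < a j i)
  (ha : ∀ j i, IsAlgebraic ℚ (a j i)) (r : Fin l → ℚ) (s : Fin l → Fin N → ℚ)

/-- the vectors in `Lf ^ (N + 1)` -/
noncomputable def vec (j : Fin l) : Fin (N + 1) → ℝ :=
  Fin.cons (r j - Real.log (P v (a j) (r j) (s j))) (fun i => Real.log (a j i) + s j i)

include h0 in
theorem logP (j : Fin l) : Real.log (P v (a j) (r j) (s j)) =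
    ∑ i, v i * Real.log (a j i) + (r j + ∑ i, s j i * v i) := by
  rw [P, Real.log_mul (Finset.prod_ne_zero_iff.mpr fun i _ => (Real.rpow_pos_of_pos (h0 j i) _).ne')
    (Real.exp_pos _).ne', Real.log_exp, Real.log_prod (fun i _ => (Real.rpow_pos_of_pos (h0 j i) _).ne')]
  congr 1
  exact sum_congr rfl fun i _ => Real.log_rpow (h0 j i) _

include h0 in
theorem vec_orth (j : Fin l) : ∑ i, (Fin.cons 1 v : Fin (N + 1) → ℝ) i * vec v a r s j i = 0 := by
  rw [Fin.sum_univ_succ]
  simp only [Fin.cons_zero, Fin.cons_succ, vec]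
  rw [logP v a h0 r s j]
  have : ∑ i, v i * (Real.log (a j i) + (s j i : ℝ)) =
      ∑ i, v i * Real.log (a j i) + ∑ i, (s j i : ℝ) * v i := by
    rw [← sum_add_distrib]
    exact sum_congr rfl fun i _ => by ring
  rw [this]
  ring

include h0 ha in
theorem vec_coord (c : Fin l → ℚ) (i : Fin N) (q : ℚ) (h : ∑ j, (c j : ℝ) * vec v a r s j i.succ = q) :
    q = ∑ j, c j * s j i := by
  have h1 : ∑ j, (c j : ℝ) * Real.log (a j i) = ((q - ∑ j, c j * s j i : ℚ) : ℝ) := by
    push_cast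
    rw [← h]
    simp only [vec, Fin.cons_succ, mul_add, sum_add_distrib]
    ring
  have := lindemann (fun j => a j i) (fun j => h0 j i) (fun j => ha j i) c _ h1
  linarith

include h0 ha in
theorem vec_indep (hli : Indep a) : LinearIndependent ℚ (vec v a r s) := by
  rw [Fintype.linearIndependent_iff]
  intro c hc
  refine Fintype.linearIndependent_iff.mp hli c ?_
  funext i
  have h1 := congrFun hc i.succ
  simp only [Finset.sum_apply, Pi.smul_apply, Rat.smul_def, Pi.zero_apply] at h1 ⊢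
  have h2 := vec_coord v a h0 ha r s c i 0 (by rw [h1]; simp)
  have h3 : ∑ j, (c j : ℝ) * vec v a r s j i.succ =
      ∑ j, (c j : ℝ) * Real.log (a j i) + ((∑ j, c j * s j i : ℚ) : ℝ) := by
    push_cast
    simp only [vec, Fin.cons_succ, mul_add, sum_add_distrib]
  rw [h3, ← h2] at h1
  simpa using h1

include h0 ha in
theorem vec_mem (hP : ∀ j, IsAlgebraic ℚ (P v (a j) (r j) (s j))) (j : Fin l) (i : Fin (N + 1)) :
    vec v a r s j i ∈ Lf := by
  have hpos : 0 < P v (a j) (r j) (s j) :=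
    mul_pos (Finset.prod_pos fun i _ => Real.rpow_pos_of_pos (h0 j i) _) (Real.exp_pos _)
  refine Fin.cases ?_ (fun i => ?_) i
  · refine ⟨-Real.log (P v (a j) (r j) (s j)), r j, ?_, ⟨r j, rfl⟩, ?_⟩
    · rw [Real.exp_neg]
      exact (exp_alg_log hpos (hP j)).inv
    · simp only [vec, Fin.cons_zero]
      ring
  · exact ⟨Real.log (a j i), s j i, exp_alg_log (h0 j i) (ha j i), ⟨s j i, rfl⟩, by
      simp only [vec, Fin.cons_succ]⟩

end upper

theorem part1 {N : ℕ} (v : Fin N → ℝ) (hv : LinearIndependent ℚ (Fin.cons 1 v : Fin (N + 1) → ℝ))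
    {l : ℕ} (a : Fin l → Fin N → ℝ) (h0 : ∀ j i, 0 < a j i) (ha : ∀ j i, IsAlgebraic ℚ (a j i))
    (hli : Indep a) (r : Fin l → ℚ) (s : Fin l → Fin N → ℚ)
    (hP : ∀ j, IsAlgebraic ℚ (P v (a j) (r j) (s j))) :
    l ≤ N * (N + 1) ∧ ((∃ i, v i = Real.pi) → l + 1 ≤ N * (N + 1)) := by
  have hd : (N + 1) * (N + 1 - 1) = N * (N + 1) := by
    rw [Nat.add_sub_cancel]
    ring
  constructor
  · rw [← hd]
    exact rank_le _ hv (vec v a r s) (vec_indep v a h0 ha r s hli) (vec_mem v a h0 ha r s hP)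
      (vec_orth v a h0 r s)
  · rintro ⟨t, ht⟩
    rw [← hd]
    refine rank_le_pi _ hv (vec v a r s) (vec_mem v a h0 ha r s hP) (vec_orth v a h0 r s) 0 t.succ
      (Fin.cons_zero _ _) (by rw [Fin.cons_succ]; exact ht) ?_
    intro p q hpq
    refine Fintype.linearIndependent_iff.mp hli p ?_
    funext i
    simp only [Finset.sum_apply, Pi.smul_apply, Rat.smul_def, Pi.zero_apply]
    have h1 := hpq i.succ (Fin.succ_ne_zero i)
    obtain ⟨q', hq'⟩ : ∃ q' : ℚ, ∑ j, (p j : ℝ) * vec v a r s j i.succ = (q' : ℝ) := by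
      by_cases hit : i.succ = t.succ
      · exact ⟨q, by rw [h1, if_pos hit]⟩
      · exact ⟨0, by rw [h1, if_neg hit]; simp⟩
    have h2 := vec_coord v a h0 ha r s p i q' hq'
    have h3 : ∑ j, (p j : ℝ) * vec v a r s j i.succ =
        ∑ j, (p j : ℝ) * Real.log (a j i) + ((∑ j, p j * s j i : ℚ) : ℝ) := by
      push_cast
      simp only [vec, Fin.cons_succ, mul_add, sum_add_distrib]
    rw [h3, ← h2] at hq'
    linarith

theorem part2 {N : ℕ} (v : Fin N → ℝ) (hv : ¬ LinearIndependent ℚ (Fin.cons 1 v : Fin (N + 1) → ℝ)) :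
    ∃ a : ℕ → Fin N → ℚ, (∀ j i, 0 < a j i) ∧ Indep (fun j i => (a j i : ℝ)) ∧
      ∀ j, ∃ q : ℚ, ∏ i, (a j i : ℝ) ^ v i = q := by
  rw [← LinearIndependent.iff_fractionRing (R := ℤ), Fintype.linearIndependent_iff] at hv
  push Not at hv
  obtain ⟨c, hc, i0, hi0⟩ := hv
  rw [Fin.sum_univ_succ] at hc
  simp only [Fin.cons_zero, Fin.cons_succ, zsmul_eq_mul, mul_one] at hc
  obtain ⟨i1, hi1⟩ : ∃ i : Fin N, c i.succ ≠ 0 := by
    by_contra hcon
    push Not at hcon
    rw [sum_eq_zero (fun i _ => by rw [hcon i]; simp), add_zero] at hc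
    have h1 : c 0 = 0 := by exact_mod_cast hc
    apply hi0
    refine Fin.cases h1 (fun i => hcon i) i0
  let p : ℕ → ℕ := fun j => Nat.nth Nat.Prime j
  have hp : ∀ j, (p j).Prime := fun j => Nat.prime_nth_prime j
  have hp0 : ∀ j, (0 : ℝ) < p j := fun j => by exact_mod_cast (hp j).pos
  refine ⟨fun j i => (p j : ℚ) ^ c i.succ, ?_, ?_, ?_⟩
  · intro j i
    exact zpow_pos (by exact_mod_cast (hp j).pos) _
  · have h1 : LinearIndependent ℚ (fun j => Real.log (p j : ℝ)) := by
      have := Pool.Agent.X139.BT.log_primes.comp (fun j : ℕ => (⟨p j, hp j⟩ : Nat.Primes)) (by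
        intro j j' h
        have h2 : p j = p j' := congrArg (fun z : Nat.Primes => (z : ℕ)) h
        exact Nat.nth_injective Nat.infinite_setOf_prime h2)
      exact this
    rw [Indep, linearIndependent_iff']
    intro S g hg
    rw [linearIndependent_iff'] at h1
    apply h1 S g
    have h2 := congrFun hg i1
    simp only [Finset.sum_apply, Pi.smul_apply, Rat.smul_def, Pi.zero_apply] at h2
    have h3 : ∑ j ∈ S, (g j : ℝ) * Real.log (((p j : ℚ) ^ c i1.succ : ℚ) : ℝ) =
        (c i1.succ : ℝ) * ∑ j ∈ S, g j • Real.log (p j : ℝ) := by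
      rw [mul_sum]
      refine sum_congr rfl fun j _ => ?_
      push_cast
      rw [Real.log_zpow, Rat.smul_def]
      ring
    rw [h3] at h2
    exact (mul_eq_zero.mp h2).resolve_left (by exact_mod_cast hi1)
  · intro j
    refine ⟨(p j : ℚ) ^ (-c 0), ?_⟩
    have h1 : ∀ i : Fin N, (((p j : ℚ) ^ c i.succ : ℚ) : ℝ) ^ v i = (p j : ℝ) ^ ((c i.succ : ℝ) * v i) := by
      intro i
      push_cast
      rw [← Real.rpow_intCast, ← Real.rpow_mul (hp0 j).le]
    rw [prod_congr rfl fun i _ => h1 i, ← Real.rpow_sum_of_pos (hp0 j)]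
    have h2 : ∑ i : Fin N, (c i.succ : ℝ) * v i = ((-c 0 : ℤ) : ℝ) := by
      push_cast
      linarith
    rw [h2, Real.rpow_intCast]
    push_cast
    rfl

/-- **Linear independence and multiplicative relations.** -/
theorem result :
    (∀ (N : ℕ) (v : Fin N → ℝ), LinearIndependent ℚ (Fin.cons 1 v : Fin (N + 1) → ℝ) →
      ∀ (l : ℕ) (a : Fin l → Fin N → ℝ), (∀ j i, 0 < a j i) → (∀ j i, IsAlgebraic ℚ (a j i)) →
        Indep a → ∀ (r : Fin l → ℚ) (s : Fin l → Fin N → ℚ),
        (∀ j, IsAlgebraic ℚ (P v (a j) (r j) (s j))) →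
        l ≤ N * (N + 1) ∧ ((∃ i, v i = Real.pi) → l + 1 ≤ N * (N + 1))) ∧
    (∀ (N : ℕ) (v : Fin N → ℝ), ¬ LinearIndependent ℚ (Fin.cons 1 v : Fin (N + 1) → ℝ) →
      ∃ a : ℕ → Fin N → ℚ, (∀ j i, 0 < a j i) ∧ Indep (fun j i => (a j i : ℝ)) ∧
        ∀ j, ∃ q : ℚ, ∏ i, (a j i : ℝ) ^ v i = q) ∧
    List.TFAE [
      LinearIndependent ℚ ![1, Real.pi, Real.exp 1],
      ∀ a b : Fin 6 → ℝ, (∀ j, 0 < a j ∧ IsAlgebraic ℚ (a j) ∧ 0 < b j ∧ IsAlgebraic ℚ (b j)) →
        Indep (fun j => ![a j, b j]) → ∀ r s t : Fin 6 → ℚ, ∃ j, Transcendental ℚ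
          (a j ^ Real.pi * b j ^ Real.exp 1 * Real.exp (r j + s j * Real.pi + t j * Real.exp 1)),
      ∃ n : ℕ, ∀ a b : Fin n → ℚ, (∀ j, 0 < a j ∧ 0 < b j) → Indep (fun j => ![(a j : ℝ), (b j : ℝ)]) →
        ∃ j, Irrational ((a j : ℝ) ^ Real.pi * (b j : ℝ) ^ Real.exp 1)] := by
  refine ⟨fun N v hv l a h0 ha hli r s hP => part1 v hv a h0 ha hli r s hP,
    fun N v hv => part2 v hv, ?_⟩
  tfae_have 1 → 2 := by
    intro hv a b hab hli r s t
    by_contra hcon
    push Not at hcon
    have hv' : LinearIndependent ℚ (Fin.cons 1 ![Real.pi, Real.exp 1] : Fin (2 + 1) → ℝ) := hv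
    have h1 := (part1 ![Real.pi, Real.exp 1] hv' (fun j => ![a j, b j]) (by
      intro j i
      fin_cases i
      · exact (hab j).1
      · exact (hab j).2.2.1) (by
      intro j i
      fin_cases i
      · exact (hab j).2.1
      · exact (hab j).2.2.2) hli r (fun j => ![s j, t j]) (by
      intro j
      have h2 := hcon j
      rw [Transcendental, not_not] at h2
      have h3 : P ![Real.pi, Real.exp 1] ![a j, b j] (r j) ![s j, t j] =
          a j ^ Real.pi * b j ^ Real.exp 1 * Real.exp (r j + s j * Real.pi + t j * Real.exp 1) := by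
        simp [P, Fin.prod_univ_two, Fin.sum_univ_two, add_assoc]
      rw [h3]
      exact h2)).2 ⟨0, rfl⟩
    omega
  tfae_have 2 → 3 := by
    intro h
    refine ⟨6, fun a b hab hli => ?_⟩
    obtain ⟨j, hj⟩ := h (fun j => a j) (fun j => b j) (fun j => ⟨by exact_mod_cast (hab j).1,
      isAlgebraic_algebraMap (a j), by exact_mod_cast (hab j).2, isAlgebraic_algebraMap (b j)⟩) hli 0 0 0
    refine ⟨j, ?_⟩
    rintro ⟨q, hq⟩
    apply hj
    simp only [Pi.zero_apply, Rat.cast_zero, zero_mul, add_zero, Real.exp_zero, mul_one]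
    rw [← hq]
    exact isAlgebraic_algebraMap q
  tfae_have 3 → 1 := by
    rintro ⟨n, hn⟩
    by_contra hv
    have hv' : ¬ LinearIndependent ℚ (Fin.cons 1 ![Real.pi, Real.exp 1] : Fin (2 + 1) → ℝ) := hv
    obtain ⟨a, h0, hli, hq⟩ := part2 _ hv'
    have h1 := hn (fun j => a j 0) (fun j => a j 1) (fun j => ⟨h0 _ _, h0 _ _⟩) (by
      have h2 := LinearIndependent.comp hli (fun j : Fin n => (j : ℕ)) Fin.val_injective
      have h3 : (fun (j : Fin n) (i : Fin 2) => Real.log (![(a j 0 : ℝ), (a j 1 : ℝ)] i)) =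
          (fun (j : ℕ) (i : Fin 2) => Real.log (a j i : ℝ)) ∘ (fun j : Fin n => (j : ℕ)) := by
        funext j i
        fin_cases i <;> rfl
      rw [Indep, h3]
      exact h2)
    obtain ⟨j, hj⟩ := h1
    obtain ⟨q, hq⟩ := hq j
    apply hj
    refine ⟨q, ?_⟩
    rw [← hq, Fin.prod_univ_two]
    rfl
  tfae_finish

end Pool.Agent.Results.MP_ee2255_nt.JointRank
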